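import Pool.Agent.Q287.Slice

/-!
# No linear bound for the subspaces containing all minimal slice rank decompositions

For every field and every `m ≥ 2` there is an order-`3` tensor of slice rank `2 m - 1` for which
every subspace containing the factors in the third variable of all decompositions of minimal length
has dimension at least `m (m - 1) / 2`.
-/

set_option linter.all false

namespace Pool.Agent.Results.MP_626f3c_co.NoLinearBound

open Finset Module Pool.Agent.Q287.Slice

universe u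

/-- `c` is an admissible value of `C(d, k)` for tensors over the field `F`. -/
def AdmissibleOver (F : Type u) [Field F] (d k : ℕ) (c : ℝ) : Prop :=
  ∀ n : Fin d → ℕ, (∀ j, 1 ≤ n j) → ∀ T : (∀ j, Fin (n j)) → F, sliceRank T = k →
    ∃ A : ∀ j, Submodule F (Fin (n j) → F), (∀ j, (finrank F (A j) : ℝ) ≤ c) ∧
      ∀ D : Decomp T, D.length = k → ∀ j, Submodule.span F (Set.range (D.u j)) ≤ A j

/-- `c` is an admissible value of `C(d, k)`. -/
def Admissible (d k : ℕ) (c : ℝ) : Prop := ∀ (F : Type u) [Field F], AdmissibleOver F d k c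

/-- The index of the private vertex of the edge `x y`. -/
def zed (m x y : ℕ) : ℕ := m + (2 * m - x - y) * m + x

/-- The hypergraph. -/
def Gam (m x y z : ℕ) : Prop :=
  (x < m ∧ y < m ∧ x < y ∧ z = zed m x y) ∨ (x < m ∧ y = 2 * m - 1 - x ∧ z = x) ∨
    (y < m ∧ x = 2 * m - 1 - y ∧ z = y)

theorem zed_aux {m x1 y1 x2 y2 : ℕ} (hx2 : x2 < m) (hy2 : y2 < m)
    (hx1 : x1 < m) (hy1 : y1 < m) (hlt : x1 + y1 < x2 + y2) : zed m x2 y2 < zed m x1 y1 := by
  unfold zed
  have h1 : 2 * m - x2 - y2 + 1 ≤ 2 * m - x1 - y1 := by omega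
  have h2 : (2 * m - x2 - y2 + 1) * m ≤ (2 * m - x1 - y1) * m := Nat.mul_le_mul_right m h1
  rw [add_mul, one_mul] at h2
  omega

theorem zed_inj {m x1 y1 x2 y2 : ℕ} (hx1 : x1 < m) (hy1 : y1 < m) (hx2 : x2 < m) (hy2 : y2 < m)
    (h : zed m x1 y1 = zed m x2 y2) : x1 = x2 ∧ y1 = y2 := by
  rcases lt_trichotomy (x1 + y1) (x2 + y2) with hlt | heq | hgt
  · have := zed_aux hx2 hy2 hx1 hy1 hlt
    omega
  · have h1 : 2 * m - x1 - y1 = 2 * m - x2 - y2 := by omega
    unfold zed at h
    rw [h1] at h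
    omega
  · have := zed_aux hx1 hy1 hx2 hy2 hgt
    omega

theorem le_zed (m x y : ℕ) : m ≤ zed m x y := by
  unfold zed
  rw [add_assoc]
  exact Nat.le_add_right _ _

theorem zed_lt {m x y : ℕ} (hx : x < m) : zed m x y < m + (2 * m + 1) * m := by
  unfold zed
  have h1 : (2 * m - x - y) * m ≤ (2 * m) * m := Nat.mul_le_mul_right m (by omega)
  rw [add_mul, one_mul]
  omega

theorem gam_anti {m x1 y1 z1 x2 y2 z2 : ℕ} (h1 : Gam m x1 y1 z1) (h2 : Gam m x2 y2 z2)
    (hx : x1 ≤ x2) (hy : y1 ≤ y2) (hz : z1 ≤ z2) : x1 = x2 ∧ y1 = y2 ∧ z1 = z2 := by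
  have l1 := le_zed m x1 y1
  have l2 := le_zed m x2 y2
  rcases h1 with ⟨a1, b1, c1, d1⟩ | ⟨a1, b1, c1⟩ | ⟨a1, b1, c1⟩
  · rcases h2 with ⟨a2, b2, c2, d2⟩ | ⟨a2, b2, c2⟩ | ⟨a2, b2, c2⟩
    · have key : ¬ (x1 + y1 < x2 + y2) := by
        intro hlt
        have := zed_aux a2 b2 a1 b1 hlt
        omega
      have e1 : x1 = x2 := by omega
      have e2 : y1 = y2 := by omega
      refine ⟨e1, e2, ?_⟩
      rw [d1, d2, e1, e2]
    · omega
    · omega
  · rcases h2 with ⟨a2, b2, c2, d2⟩ | ⟨a2, b2, c2⟩ | ⟨a2, b2, c2⟩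
    · omega
    · omega
    · omega
  · rcases h2 with ⟨a2, b2, c2, d2⟩ | ⟨a2, b2, c2⟩ | ⟨a2, b2, c2⟩
    · omega
    · omega
    · omega

/-- Every cover has size at least `2 m - 1`. -/
theorem cover_low {m : ℕ} (B0 B1 B2 : Finset ℕ)
    (h : ∀ x y z, Gam m x y z → x ∈ B0 ∨ y ∈ B1 ∨ z ∈ B2) :
    2 * m - 1 ≤ B0.card + B1.card + B2.card := by
  classical
  set S := (range m).filter (fun v => v ∉ B0 ∧ v ∉ B1) with hS
  -- the cost of a vertex
  have hcost : ∀ v ∈ range m, (1 + if v ∈ S then 0 else 1) ≤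
      ((if v ∈ B0 then 1 else 0) + (if 2 * m - 1 - v ∈ B0 then 1 else 0)) +
      ((if v ∈ B1 then 1 else 0) + (if 2 * m - 1 - v ∈ B1 then 1 else 0)) +
      (if v ∈ B2 then 1 else 0) := by
    intro v hv
    have hvm := mem_range.1 hv
    have hb := h v (2 * m - 1 - v) v (Or.inr (Or.inl ⟨hvm, rfl, rfl⟩))
    have hc := h (2 * m - 1 - v) v v (Or.inr (Or.inr ⟨hvm, rfl, rfl⟩))
    have hSv : v ∈ S ↔ v ∉ B0 ∧ v ∉ B1 := by
      rw [hS, mem_filter]
      exact ⟨fun h => h.2, fun h => ⟨hv, h⟩⟩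
    by_cases h0 : v ∈ B0 <;> by_cases h1 : v ∈ B1 <;> by_cases h2 : v ∈ B2 <;>
      by_cases h3 : 2 * m - 1 - v ∈ B0 <;> by_cases h4 : 2 * m - 1 - v ∈ B1 <;>
      simp_all
  have htwo : ∀ B : Finset ℕ, ∑ v ∈ range m, ((if v ∈ B then 1 else 0) +
      (if 2 * m - 1 - v ∈ B then 1 else 0)) ≤ B.card := by
    intro B
    rw [Finset.sum_add_distrib, ← Finset.card_filter, ← Finset.card_filter]
    have hinj : Set.InjOn (fun v => 2 * m - 1 - v)
        ((range m).filter (fun v => 2 * m - 1 - v ∈ B) : Finset ℕ) := by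
      intro a ha b hb hab
      have h1 := mem_range.1 (mem_filter.1 (Finset.mem_coe.1 ha)).1
      have h2 := mem_range.1 (mem_filter.1 (Finset.mem_coe.1 hb)).1
      simp only at hab
      omega
    rw [← Finset.card_image_of_injOn hinj, ← Finset.card_union_of_disjoint]
    · apply Finset.card_le_card
      intro x hx
      rcases mem_union.1 hx with hx | hx
      · exact (mem_filter.1 hx).2
      · obtain ⟨v, hv, rfl⟩ := mem_image.1 hx
        exact (mem_filter.1 hv).2
    · rw [Finset.disjoint_left]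
      intro x hx hx2
      have h1 := mem_range.1 (mem_filter.1 hx).1
      obtain ⟨v, hv, rfl⟩ := mem_image.1 hx2
      have h2 := mem_range.1 (mem_filter.1 hv).1
      omega
  have hsum := Finset.sum_le_sum hcost
  rw [Finset.sum_add_distrib, Finset.sum_add_distrib (f := fun v =>
    ((if v ∈ B0 then 1 else 0) + (if 2 * m - 1 - v ∈ B0 then 1 else 0)) +
      ((if v ∈ B1 then 1 else 0) + (if 2 * m - 1 - v ∈ B1 then 1 else 0))),
    Finset.sum_add_distrib (f := fun v =>
    ((if v ∈ B0 then 1 else 0) + (if 2 * m - 1 - v ∈ B0 then 1 else 0)))] at hsum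
  have hB0 := htwo B0
  have hB1 := htwo B1
  have hone : ∑ v ∈ range m, 1 = m := by simp
  have hnotS : ∑ v ∈ range m, (if v ∈ S then 0 else 1) = m - S.card := by
    have h1 : ∑ v ∈ range m, (if v ∈ S then 0 else 1) = ((range m).filter (fun v => v ∉ S)).card := by
      rw [Finset.card_filter]
      apply Finset.sum_congr rfl
      intro v _
      by_cases hv : v ∈ S <;> simp [hv]
    rw [h1, Finset.filter_notMem_eq_sdiff, Finset.card_sdiff_of_subset (filter_subset _ _), card_range]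
  have hSm : S.card ≤ m := by
    have := Finset.card_le_card (filter_subset (fun v => v ∉ B0 ∧ v ∉ B1) (range m))
    rwa [card_range] at this
  -- the third set
  have hB2 : ∑ v ∈ range m, (if v ∈ B2 then 1 else 0) + (S.card - 1) ≤ B2.card := by
    rw [← Finset.card_filter]
    by_cases hne : S.Nonempty
    · set w := S.max' hne with hw
      have hwS : w ∈ S := Finset.max'_mem S hne
      have hwm : w < m := mem_range.1 (mem_filter.1 hwS).1
      have hinj : Set.InjOn (fun v => zed m v w) (S.erase w : Finset ℕ) := by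
        intro a ha b hb hab
        have h1 := mem_range.1 (mem_filter.1 (mem_erase.1 (Finset.mem_coe.1 ha)).2).1
        have h2 := mem_range.1 (mem_filter.1 (mem_erase.1 (Finset.mem_coe.1 hb)).2).1
        exact (zed_inj h1 hwm h2 hwm hab).1
      rw [← Finset.card_erase_of_mem hwS, ← Finset.card_image_of_injOn hinj,
        ← Finset.card_union_of_disjoint]
      · apply Finset.card_le_card
        intro x hx
        rcases mem_union.1 hx with hx | hx
        · exact (mem_filter.1 hx).2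
        · obtain ⟨v, hv, rfl⟩ := mem_image.1 hx
          obtain ⟨hvw, hvS⟩ := mem_erase.1 hv
          have hvm : v < m := mem_range.1 (mem_filter.1 hvS).1
          have hlt : v < w := lt_of_le_of_ne (Finset.le_max' S v hvS) hvw
          have h1 := h v w (zed m v w) (Or.inl ⟨hvm, hwm, hlt, rfl⟩)
          rcases h1 with h1 | h1 | h1
          · exact absurd h1 (mem_filter.1 hvS).2.1
          · exact absurd h1 (mem_filter.1 hwS).2.2
          · exact h1
      · rw [Finset.disjoint_left]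
        intro x hx hx2
        have h1 := mem_range.1 (mem_filter.1 hx).1
        obtain ⟨v, hv, rfl⟩ := mem_image.1 hx2
        have := le_zed m v w
        omega
    · rw [Finset.not_nonempty_iff_eq_empty] at hne
      rw [hne, card_empty]
      have : ((range m).filter (fun v => v ∈ B2)).card ≤ B2.card := by
        apply Finset.card_le_card
        intro x hx
        exact (mem_filter.1 hx).2
      omega
  rw [hone, hnotS] at hsum
  omega

/-- The dimensions. -/
def nn (m : ℕ) : Fin 3 → ℕ := ![2 * m, 2 * m, m + (2 * m + 1) * m]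

open Classical in
/-- The tensor. -/
noncomputable def ten (F : Type u) [Field F] (m : ℕ) : (∀ j, Fin (nn m j)) → F :=
  fun x => if Gam m (x 0 : ℕ) (x 1 : ℕ) (x 2 : ℕ) then 1 else 0

variable {F : Type u} [Field F]

theorem ten_ne {m : ℕ} (x : ∀ j, Fin (nn m j)) :
    ten F m x ≠ 0 ↔ Gam m (x 0 : ℕ) (x 1 : ℕ) (x 2 : ℕ) := by
  unfold ten
  split_ifs with h <;> simp [h]

theorem ten_anti (m : ℕ) (x y : ∀ j, Fin (nn m j)) (hx : ten F m x ≠ 0) (hy : ten F m y ≠ 0)
    (hxy : x ≤ y) : x = y := by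
  rw [ten_ne] at hx hy
  obtain ⟨h0, h1, h2⟩ := gam_anti hx hy (hxy 0) (hxy 1) (hxy 2)
  funext j
  apply Fin.ext
  fin_cases j
  · exact h0
  · exact h1
  · exact h2

theorem gam_bound {m x y z : ℕ} (h : Gam m x y z) :
    x < 2 * m ∧ y < 2 * m ∧ z < m + (2 * m + 1) * m := by
  rcases h with ⟨a, b, c, d⟩ | ⟨a, b, c⟩ | ⟨a, b, c⟩
  · refine ⟨by omega, by omega, ?_⟩
    rw [d]
    exact zed_lt a
  · exact ⟨by omega, by omega, by omega⟩
  · exact ⟨by omega, by omega, by omega⟩

theorem ten_low (m : ℕ) (A : ∀ j, Finset (Fin (nn m j)))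
    (hA : ∀ x, ten F m x ≠ 0 → ∃ j, x j ∈ A j) : 2 * m - 1 ≤ ∑ j, (A j).card := by
  classical
  have h := cover_low (m := m) ((A 0).image Fin.val) ((A 1).image Fin.val)
    ((A 2).image Fin.val) (by
      intro x y z hg
      obtain ⟨bx, by', bz⟩ := gam_bound hg
      let p : ∀ j, Fin (nn m j) := fun j => ⟨(![x, y, z] : Fin 3 → ℕ) j, by
        fin_cases j
        · exact bx
        · exact by'
        · exact bz⟩
      obtain ⟨j, hj⟩ := hA p ((ten_ne p).2 hg)
      fin_cases j
      · exact Or.inl (mem_image.2 ⟨p 0, hj, rfl⟩)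
      · exact Or.inr (Or.inl (mem_image.2 ⟨p 1, hj, rfl⟩))
      · exact Or.inr (Or.inr (mem_image.2 ⟨p 2, hj, rfl⟩)))
  rw [Finset.card_image_of_injective _ Fin.val_injective,
    Finset.card_image_of_injective _ Fin.val_injective,
    Finset.card_image_of_injective _ Fin.val_injective] at h
  rw [Fin.sum_univ_three]
  exact h

/-- The minimal cover belonging to the pair `a < b`, as sets of natural numbers. -/
def cov (m a b : ℕ) : Fin 3 → Finset ℕ :=
  ![((range m).erase a).erase b, ((range m).erase a).erase b, {a, b, zed m a b}]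

theorem cov_cover {m a b : ℕ} {x y z : ℕ} (h : Gam m x y z) :
    x ∈ cov m a b 0 ∨ y ∈ cov m a b 1 ∨ z ∈ cov m a b 2 ∨ b < a := by
  show x ∈ ((range m).erase a).erase b ∨ y ∈ ((range m).erase a).erase b ∨
    z ∈ ({a, b, zed m a b} : Finset ℕ) ∨ b < a
  simp only [mem_erase, mem_range, mem_insert, mem_singleton]
  rcases h with ⟨h1, h2, h3, h4⟩ | ⟨h1, h2, h3⟩ | ⟨h1, h2, h3⟩
  · by_cases hx : x ≠ b ∧ x ≠ a ∧ x < m
    · exact Or.inl hx
    · by_cases hy : y ≠ b ∧ y ≠ a ∧ y < m
      · exact Or.inr (Or.inl hy)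
      · have hx' : x = a ∨ x = b := by omega
        have hy' : y = a ∨ y = b := by omega
        rcases hx' with rfl | rfl
        · rcases hy' with rfl | rfl
          · omega
          · exact Or.inr (Or.inr (Or.inl (Or.inr (Or.inr h4))))
        · rcases hy' with rfl | rfl
          · exact Or.inr (Or.inr (Or.inr h3))
          · omega
  · omega
  · omega

theorem card_fin {N : ℕ} (B : Finset ℕ) (hB : ∀ x ∈ B, x < N) :
    ((univ : Finset (Fin N)).filter (fun x : Fin N => x.val ∈ B)).card = B.card := by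
  classical
  rw [← Finset.card_image_of_injective _ Fin.val_injective]
  congr 1
  ext x
  rw [mem_image]
  constructor
  · rintro ⟨y, hy, rfl⟩
    exact (mem_filter.1 hy).2
  · intro hx
    exact ⟨⟨x, hB x hx⟩, mem_filter.2 ⟨mem_univ _, hx⟩, rfl⟩

/-- The minimal cover. -/
def Acov (m a b : ℕ) (j : Fin 3) : Finset (Fin (nn m j)) :=
  univ.filter (fun x => (x : ℕ) ∈ cov m a b j)

theorem Acov_card {m a b : ℕ} (hab : a < b) (hb : b < m) : ∑ j, (Acov m a b j).card = 2 * m - 1 := by
  classical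
  have e0 : (Acov m a b 0).card = m - 2 := by
    have h1 := card_fin (N := 2 * m) (((range m).erase a).erase b) (by
      intro x hx
      have := mem_range.1 (mem_erase.1 (mem_erase.1 hx).2).2
      omega)
    rw [Finset.card_erase_of_mem (mem_erase.2 ⟨by omega, mem_range.2 hb⟩),
      Finset.card_erase_of_mem (mem_range.2 (by omega)), card_range] at h1
    have h2 : (Acov m a b 0).card = m - 1 - 1 := h1
    omega
  have e1 : (Acov m a b 1).card = m - 2 := e0
  have e2 : (Acov m a b 2).card = 3 := by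
    have h1 := card_fin (N := m + (2 * m + 1) * m) {a, b, zed m a b} (by
      intro x hx
      simp only [mem_insert, mem_singleton] at hx
      rcases hx with rfl | rfl | rfl
      · omega
      · omega
      · exact zed_lt (by omega))
    have h2 : ({a, b, zed m a b} : Finset ℕ).card = 3 := by
      have hz := le_zed m a b
      rw [Finset.card_eq_three]
      exact ⟨a, b, zed m a b, by omega, by omega, by omega, rfl⟩
    rw [h2] at h1
    exact h1
  rw [Fin.sum_univ_three, e0, e1, e2]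
  omega

theorem Acov_cover {m a b : ℕ} (hab : a < b) (x : ∀ j, Fin (nn m j)) (hx : ten F m x ≠ 0) :
    ∃ j, x j ∈ Acov m a b j := by
  rw [ten_ne] at hx
  rcases cov_cover (a := a) (b := b) hx with h | h | h | h
  · exact ⟨0, mem_filter.2 ⟨mem_univ _, h⟩⟩
  · exact ⟨1, mem_filter.2 ⟨mem_univ _, h⟩⟩
  · exact ⟨2, mem_filter.2 ⟨mem_univ _, h⟩⟩
  · omega

theorem ten_rank {m : ℕ} (hm : 2 ≤ m) : sliceRank (ten F m) = 2 * m - 1 :=
  sliceRank_eq (ten_anti m) (2 * m - 1) (ten_low m) (Acov m 0 1) (Acov_cover (by norm_num))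
    (Acov_card (by norm_num) (by omega))

/-- The lower bound for admissible values. -/
theorem lower {m : ℕ} (hm : 2 ≤ m) (c : ℝ) (h : AdmissibleOver F 3 (2 * m - 1) c) :
    ((m * (m - 1) / 2 : ℕ) : ℝ) ≤ c := by
  classical
  obtain ⟨A, hA, hD⟩ := h (nn m) (by
    intro j
    fin_cases j
    · show 1 ≤ 2 * m
      omega
    · show 1 ≤ 2 * m
      omega
    · show 1 ≤ m + (2 * m + 1) * m
      omega) (ten F m) (ten_rank hm)
  refine le_trans ?_ (hA 2)
  have hmem : ∀ a b : ℕ, a < b → b < m → ∀ hz : zed m a b < nn m 2,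
      (Pi.single ⟨zed m a b, hz⟩ (1 : F) : Fin (nn m 2) → F) ∈ A 2 := by
    intro a b hab hb hz
    obtain ⟨D, hD1, hD2⟩ := exists_decomp (T := ten F m) (Acov m a b) (Acov_cover hab)
    have hlen : D.length = 2 * m - 1 := by
      rw [← Acov_card hab hb]
      exact Finset.sum_congr rfl fun j _ => hD1 j
    apply hD D hlen 2
    apply hD2 2
    refine mem_filter.2 ⟨mem_univ _, ?_⟩
    show zed m a b ∈ ({a, b, zed m a b} : Finset ℕ)
    simp
  set P : Finset (Σ _ : ℕ, ℕ) := (range m).sigma (fun b => range b) with hP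
  have hPcard : P.card = m * (m - 1) / 2 := by
    rw [hP, Finset.card_sigma]
    simp only [card_range]
    exact Finset.sum_range_id m
  have hPm : ∀ p ∈ P, p.2 < p.1 ∧ p.1 < m := by
    intro p hp
    rw [hP, mem_sigma, mem_range, mem_range] at hp
    exact ⟨hp.2, hp.1⟩
  let f : P → Fin (nn m 2) := fun p => ⟨zed m p.1.2 p.1.1, zed_lt (by have := hPm p.1 p.2; omega)⟩
  have hf : Function.Injective f := by
    intro p q hpq
    have h1 : zed m p.1.2 p.1.1 = zed m q.1.2 q.1.1 := congrArg Fin.val hpq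
    have hp := hPm p.1 p.2
    have hq := hPm q.1 q.2
    obtain ⟨h2, h3⟩ := zed_inj (by omega) (by omega) (by omega) (by omega) h1
    apply Subtype.ext
    exact Sigma.ext h3 (heq_of_eq h2)
  have hli : LinearIndependent F (fun p : P => (⟨Pi.single (f p) 1,
      hmem p.1.2 p.1.1 (hPm p.1 p.2).1 (hPm p.1 p.2).2 (f p).2⟩ : A 2)) := by
    apply LinearIndependent.of_comp (A 2).subtype
    have h1 := (Pi.basisFun F (Fin (nn m 2))).linearIndependent.comp f hf
    convert h1 using 1
    funext p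
    simp [Pi.basisFun_apply]
  have hcard := hli.fintype_card_le_finrank
  rw [Fintype.card_coe, hPcard] at hcard
  exact_mod_cast hcard

/-- No linear bound is admissible for order-`3` tensors, over any field: an admissible value of
`C(3, 2 m - 1)` is at least `m (m - 1) / 2`. -/
theorem result :
    (∀ (F : Type u) [Field F] (m : ℕ), 2 ≤ m → ∀ c : ℝ, AdmissibleOver F 3 (2 * m - 1) c →
      ((m * (m - 1) / 2 : ℕ) : ℝ) ≤ c) ∧
    (∀ (F : Type u) [Field F], ∀ K : ℝ, ∃ k : ℕ, 1 ≤ k ∧ ¬ AdmissibleOver F 3 k (K * k)) ∧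
    ¬ ∀ d : ℕ, 3 ≤ d → ∃ K : ℝ, ∀ k : ℕ, 1 ≤ k → Admissible.{u} d k (K * k) := by
  have h1 : ∀ (F : Type u) [Field F] (m : ℕ), 2 ≤ m → ∀ c : ℝ,
      AdmissibleOver F 3 (2 * m - 1) c → ((m * (m - 1) / 2 : ℕ) : ℝ) ≤ c :=
    fun F _ m hm c h => lower hm c h
  have h2 : ∀ (F : Type u) [Field F], ∀ K : ℝ, ∃ k : ℕ, 1 ≤ k ∧
      ¬ AdmissibleOver F 3 k (K * k) := by
    intro F _ K
    obtain ⟨N, hN⟩ := exists_nat_ge K
    -- take `m = 4 N + 4`
    refine ⟨2 * (4 * N + 4) - 1, by omega, fun h => ?_⟩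
    have h3 := h1 F (4 * N + 4) (by omega) _ h
    have h4 : ((4 * N + 4) * (4 * N + 4 - 1) / 2 : ℕ) = (2 * N + 2) * (4 * N + 3) := by
      have : (4 * N + 4) * (4 * N + 4 - 1) = 2 * ((2 * N + 2) * (4 * N + 3)) := by
        have : 4 * N + 4 - 1 = 4 * N + 3 := by omega
        rw [this]
        ring
      rw [this, Nat.mul_div_cancel_left _ (by norm_num)]
    rw [h4] at h3
    have h5 : ((2 * (4 * N + 4) - 1 : ℕ) : ℝ) = 8 * N + 7 := by
      have : 2 * (4 * N + 4) - 1 = 8 * N + 7 := by omega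
      rw [this]
      push_cast
      ring
    rw [h5] at h3
    push_cast at h3
    have hN0 : (0 : ℝ) ≤ N := Nat.cast_nonneg N
    have h6 : K * (8 * N + 7) ≤ N * (8 * N + 7) :=
      mul_le_mul_of_nonneg_right hN (by linarith)
    nlinarith
  refine ⟨h1, h2, ?_⟩
  intro h
  obtain ⟨K, hK⟩ := h 3 (le_refl 3)
  obtain ⟨k, hk, hno⟩ := h2 (ULift.{u} ℚ) K
  exact hno (hK k hk (ULift.{u} ℚ))

end Pool.Agent.Results.MP_626f3c_co.NoLinearBound
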